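import Mathlib
import Pool.Agent.H.MP_f1f3c4_lc.B

set_option autoImplicit false

namespace Pool.Agent.Results.MP_f1f3c4_lc.Yes

open Cardinal Pool.Agent.H.MP_31a5ad_lc Pool.Agent.H.MP_f1f3c4_lc

theorem result (h : MAs) (T : Type) [PartialOrder T] [WellFoundedLT T] (hA : Aron T)
    (hT : #T ≤ ℵ₁) : Spz T :=
  main h hT hA.1 hA.2.2

end Pool.Agent.Results.MP_f1f3c4_lc.Yes
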